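import Mathlib
import Pool.Agent.H78.BN.Generic2

/-!
# A family of four-letter instances with a quadratic threshold
-/

set_option autoImplicit false

namespace Pool.Agent.H32.BM

open Finset Pool.Agent.H78.BN

/-- Sufficient condition: the prefix condition, and the window condition for the windows whose
length `L` satisfies `2 L d_l < D` for some `l`. -/
theorem Bstar_lt_of_prefix_hall {n : ℕ} (d : Fin n → ℕ) (hD : 0 < total d)
    (hP : ∀ b : ℤ, ∑ i, Fl (rate d i) b ≤ b)
    (hR : ∀ a b : ℕ, a < b → b ≤ total d → (∃ l, 2 * (b - a) * d l < total d) →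
      ∑ i, max 0 (Fl (rate d i) b - Cl (rate d i) a) ≤ (b:ℤ) - a) :
    Bstar d < 3/4 := by
  have hD' : (0:ℝ) < total d := by exact_mod_cast hD
  apply Bstar_lt_of_hall d hD
  intro a b hab hbD
  by_cases hneg : ∃ l, Fl (rate d l) b - Cl (rate d l) a < 0
  · obtain ⟨l, hl⟩ := hneg
    have hlt : 2 * (b - a) * d l < total d := by
      have h1 : (b:ℝ) * rate d l + 1/4 - 1 < ((Fl (rate d l) b : ℤ) : ℝ) := by
        unfold Fl; exact_mod_cast Int.sub_one_lt_floor _
      have h2 : ((Cl (rate d l) a : ℤ) : ℝ) < (a:ℝ) * rate d l - 1/4 + 1 := by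
        unfold Cl; exact_mod_cast Int.ceil_lt_add_one _
      have h3 : ((Fl (rate d l) b : ℤ) : ℝ) + 1 ≤ ((Cl (rate d l) a : ℤ) : ℝ) := by
        exact_mod_cast (by omega : Fl (rate d l) b + 1 ≤ Cl (rate d l) a)
      have h4 : ((b:ℝ) - a) * rate d l < 1/2 := by linarith
      unfold rate at h4
      rw [mul_div_assoc', div_lt_iff₀ hD'] at h4
      have h5 : ((2 * (b - a) * d l : ℕ) : ℝ) < total d := by
        push_cast
        rw [Nat.cast_sub (le_of_lt hab)]
        linarith
      exact_mod_cast h5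
    exact hR a b hab hbD ⟨l, hlt⟩
  · push Not at hneg
    have h1 := hP b
    have h2 := hP (-a)
    have h3 : ∑ i, max 0 (Fl (rate d i) b - Cl (rate d i) a)
        = ∑ i, Fl (rate d i) b + ∑ i, Fl (rate d i) (-a) := by
      rw [← Finset.sum_add_distrib]
      apply Finset.sum_congr rfl
      intro i _
      rw [max_eq_right (hneg i), Cl_eq_neg_Fl]; ring
    rw [h3]; omega

/-- For four letters the prefix condition fails only if the exceptional congruence holds. -/
theorem prefix_of_not_badMod (d : Fin 4 → ℕ) (hd : ∀ i, 0 < d i) (hbad : ¬ BadMod d) (b : ℤ) :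
    ∑ i, Fl (rate d i) b ≤ b := by
  have hD : 0 < total d := by
    unfold total
    exact Finset.sum_pos (fun i _ => hd i) ⟨0, mem_univ _⟩
  have hD' : (0:ℝ) < total d := by exact_mod_cast hD
  by_contra hcon
  push Not at hcon
  have h1 := sum_Fl_le d hD b
  have h2 : ((b:ℤ):ℝ) + 1 ≤ ((∑ i, Fl (rate d i) b : ℤ) : ℝ) := by exact_mod_cast hcon
  apply hbad
  apply badMod_of_time d hd b
  intro i
  have h3 : ∀ j, ((Fl (rate d j) b : ℤ) : ℝ) ≤ (b:ℝ) * rate d j + 1/4 := by
    intro j; unfold Fl; exact Int.floor_le _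
  have h4 : ∑ j, (((b:ℝ) * rate d j + 1/4) - ((Fl (rate d j) b : ℤ) : ℝ)) ≤ 0 := by
    rw [Finset.sum_sub_distrib, Finset.sum_add_distrib, ← Finset.mul_sum, sum_rate d hD]
    push_cast at h2
    simp
    linarith
  have h5 := Finset.single_le_sum
    (f := fun j => ((b:ℝ) * rate d j + 1/4) - ((Fl (rate d j) b : ℤ) : ℝ))
    (fun j _ => by have := h3 j; linarith) (mem_univ i)
  have h6 : (b:ℝ) * rate d i + 1/4 = ((Fl (rate d i) b : ℤ) : ℝ) := by
    have := h3 i
    linarith
  refine ⟨Fl (rate d i) b, ?_⟩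
  unfold rate at h6
  have h7 : ((4 * b * d i + total d : ℤ) : ℝ) = ((4 * total d * Fl (rate d i) b : ℤ) : ℝ) := by
    push_cast
    unfold rate
    field_simp at h6
    linarith
  exact_mod_cast h7

/-- If the letter `i` is forced to occur in the window `(a, b]`, there is an integer `t` with
`4 a dᵢ - D ≤ 4 D t` and `4 D (t + 1) ≤ 4 b dᵢ + D`. -/
theorem forced_one {n : ℕ} (d : Fin n → ℕ) (hD : 0 < total d) (i : Fin n) (a b : ℕ)
    (h : 1 ≤ Fl (rate d i) b - Cl (rate d i) a) :
    ∃ t : ℤ, 4 * a * d i - total d ≤ 4 * total d * t ∧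
      4 * total d * (t + 1) ≤ 4 * b * d i + total d := by
  have hD' : (0:ℝ) < total d := by exact_mod_cast hD
  refine ⟨Cl (rate d i) a, ?_, ?_⟩
  · have h2 : (a:ℝ) * rate d i - 1/4 ≤ ((Cl (rate d i) a : ℤ) : ℝ) := by
      unfold Cl; exact_mod_cast Int.le_ceil _
    have h3 : (a:ℝ) * d i - total d / 4 ≤ total d * ((Cl (rate d i) a : ℤ) : ℝ) := by
      have h4 := mul_le_mul_of_nonneg_left h2 hD'.le
      unfold rate at h4 ⊢
      have h5 : (total d : ℝ) * ((a:ℝ) * ((d i : ℝ) / total d) - 1/4)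
          = (a:ℝ) * d i - total d / 4 := by
        field_simp
      rw [h5] at h4
      exact h4
    have h6 : ((4 * a * d i - total d : ℤ) : ℝ)
        ≤ ((4 * total d * Cl (rate d i) a : ℤ) : ℝ) := by
      push_cast
      linarith
    exact_mod_cast h6
  · have h1 : ((Fl (rate d i) b : ℤ) : ℝ) ≤ (b:ℝ) * rate d i + 1/4 := by
      unfold Fl; exact_mod_cast Int.floor_le _
    have h2 : ((Cl (rate d i) a : ℤ) : ℝ) + 1 ≤ (b:ℝ) * rate d i + 1/4 := by
      have h3 : ((Cl (rate d i) a : ℤ) : ℝ) + 1 ≤ ((Fl (rate d i) b : ℤ) : ℝ) := by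
        exact_mod_cast (by omega : Cl (rate d i) a + 1 ≤ Fl (rate d i) b)
      linarith
    have h4 := mul_le_mul_of_nonneg_left h2 hD'.le
    have h5 : (total d : ℝ) * ((b:ℝ) * rate d i + 1/4) = (b:ℝ) * d i + total d / 4 := by
      unfold rate
      field_simp
    rw [h5] at h4
    have h6 : ((4 * total d * (Cl (rate d i) a + 1) : ℤ) : ℝ)
        ≤ ((4 * b * d i + total d : ℤ) : ℝ) := by
      push_cast
      linarith
    exact_mod_cast h6

/-- An upper bound for the number of forced occurrences. -/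
theorem forced_le {n : ℕ} (d : Fin n → ℕ) (hD : 0 < total d) (i : Fin n) (a b : ℕ) (c : ℕ)
    (hc : 4 * b * d i + 2 * total d < 4 * a * d i + 4 * total d * (c + 1)) :
    Fl (rate d i) b - Cl (rate d i) a ≤ c := by
  have hD' : (0:ℝ) < total d := by exact_mod_cast hD
  have h1 : ((Fl (rate d i) b : ℤ) : ℝ) ≤ (b:ℝ) * rate d i + 1/4 := by
    unfold Fl; exact_mod_cast Int.floor_le _
  have h2 : (a:ℝ) * rate d i - 1/4 ≤ ((Cl (rate d i) a : ℤ) : ℝ) := by
    unfold Cl; exact_mod_cast Int.le_ceil _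
  have h3 : (4 * b * d i + 2 * total d : ℝ) < 4 * a * d i + 4 * total d * (c + 1) := by
    exact_mod_cast hc
  have h4 : (b:ℝ) * rate d i + 1/4 - ((a:ℝ) * rate d i - 1/4) < c + 1 := by
    unfold rate
    rw [← sub_pos] at h3 ⊢
    have h5 : (c:ℝ) + 1 - ((b:ℝ) * ((d i:ℝ) / total d) + 1/4 - ((a:ℝ) * ((d i:ℝ) / total d) - 1/4))
        = (4 * a * d i + 4 * total d * (c + 1) - (4 * b * d i + 2 * total d)) / (4 * total d) := by
      field_simp
      ring
    rw [h5]
    positivity
  have h5 : (((Fl (rate d i) b - Cl (rate d i) a : ℤ)) : ℝ) < ((c + 1 : ℤ) : ℝ) := by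
    push_cast
    linarith
  have h6 : Fl (rate d i) b - Cl (rate d i) a < c + 1 := by exact_mod_cast h5
  omega

/-- A lower bound for the number of forced occurrences. -/
theorem forced_ge {n : ℕ} (d : Fin n → ℕ) (hD : 0 < total d) (i : Fin n) (a b : ℕ) (t : ℤ)
    (h1 : 4 * a * d i - total d ≤ 4 * total d * t)
    (h2 : 4 * total d * (t + 1) ≤ 4 * b * d i + total d) :
    1 ≤ Fl (rate d i) b - Cl (rate d i) a := by
  have hD' : (0:ℝ) < total d := by exact_mod_cast hD
  have h3 : Cl (rate d i) a ≤ t := by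
    unfold Cl
    rw [Int.ceil_le]
    have h4 : ((4 * a * d i - total d : ℤ) : ℝ) ≤ ((4 * total d * t : ℤ) : ℝ) := by
      exact_mod_cast h1
    push_cast at h4
    unfold rate
    rw [← sub_nonneg] at h4 ⊢
    have h5 : (t:ℝ) - (((a:ℤ):ℝ) * ((d i:ℝ) / total d) - 1/4)
        = (4 * total d * t - (4 * a * d i - total d)) / (4 * total d) := by
      push_cast
      field_simp
    rw [h5]
    positivity
  have h4 : t + 1 ≤ Fl (rate d i) b := by
    unfold Fl
    rw [Int.le_floor]
    have h4 : ((4 * total d * (t + 1) : ℤ) : ℝ) ≤ ((4 * b * d i + total d : ℤ) : ℝ) := by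
      exact_mod_cast h2
    push_cast at h4
    unfold rate
    rw [← sub_nonneg] at h4 ⊢
    have h5 : ((b:ℤ):ℝ) * ((d i:ℝ) / total d) + 1/4 - ((t + 1 : ℤ) : ℝ)
        = (4 * b * d i + total d - (4 * total d * (t + 1))) / (4 * total d) := by
      push_cast
      field_simp
    rw [h5]
    positivity
  omega

end Pool.Agent.H32.BM
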