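import Mathlib
import Pool.Agent.H32.BM.Fam

/-!
# The criterion with short windows only

`B*(d) < 3/4` iff the prefix condition holds and the window condition holds for the windows of
length `L` with `2 L d_l < D` for some `l`.
-/

set_option autoImplicit false

namespace Pool.Agent.H32.BM

open Finset Pool.Agent.H78.BN

theorem criterion (n : ℕ) (d : Fin n → ℕ) (hn : 1 ≤ n) (hd : ∀ i, 0 < d i) :
    Bstar d < 3 / 4 ↔
      (∀ k : ℕ, k ≤ total d → ∑ i, ⌊(k : ℝ) * d i / total d + 1 / 4⌋ ≤ (k : ℤ)) ∧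
      (∀ a b : ℕ, a < b → b ≤ total d → (∃ l, 2 * (b - a) * d l < total d) →
        ∑ i, max 0 (⌊(b : ℝ) * d i / total d + 1 / 4⌋ - ⌈(a : ℝ) * d i / total d - 1 / 4⌉)
          ≤ (b : ℤ) - a) := by
  have hD : 0 < total d := by
    unfold total
    exact Finset.sum_pos (fun i _ => hd i) ⟨⟨0, by omega⟩, Finset.mem_univ _⟩
  have hFl : ∀ (k : ℕ) i, ⌊(k : ℝ) * d i / total d + 1 / 4⌋ = Fl (rate d i) k := by
    intro k i
    unfold Fl rate
    rw [mul_div_assoc, Int.cast_natCast]
  have hCl : ∀ (k : ℕ) i, ⌈(k : ℝ) * d i / total d - 1 / 4⌉ = Cl (rate d i) k := by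
    intro k i
    unfold Cl rate
    rw [mul_div_assoc, Int.cast_natCast]
  simp only [hFl, hCl]
  constructor
  · intro hB
    exact ⟨fun k hk => prefix_of_Bstar_lt d hD hB k hk,
      fun a b hab _ _ => hall_of_Bstar_lt d hD hB a b hab.le⟩
  · rintro ⟨hP, hW⟩
    refine Bstar_lt_of_prefix_hall d hD ?_ hW
    intro b
    have hDz : (0:ℤ) < total d := by exact_mod_cast hD
    have h1 : b = (b % total d) + (b / total d) * total d := by
      have := Int.emod_add_mul_ediv b (total d)
      linarith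
    have h2 : 0 ≤ b % total d := Int.emod_nonneg _ (by omega)
    have h3 : b % total d < total d := Int.emod_lt_of_pos _ hDz
    obtain ⟨k, hk⟩ : ∃ k : ℕ, b % total d = k := ⟨(b % total d).toNat, by omega⟩
    have h4 := hP k (by omega)
    rw [h1, hk]
    simp only [Fl_add_mul d hD]
    rw [Finset.sum_add_distrib, ← Finset.mul_sum]
    have h5 : ∑ i, (d i : ℤ) = total d := by unfold total; push_cast; rfl
    rw [h5]
    linarith

end Pool.Agent.H32.BM
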