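import Mathlib
import Pool.Agent.H78.BN.Generic

/-!
# Doubling: a new letter whose demand is the total demand

`B*(D, d₁, …, dₙ) < 3/4` iff `B*(d₁, …, dₙ) < 3/4`, `D = d₁ + … + dₙ`.
-/

set_option autoImplicit false

namespace Pool.Agent.H32.BM

open Finset Pool.Agent.H78.BN

variable {n : ℕ}

theorem total_cons (d : Fin n → ℕ) : total (Fin.cons (total d) d : Fin (n+1) → ℕ) = 2 * total d := by
  unfold total
  rw [Fin.sum_univ_succ]
  simp only [Fin.cons_zero, Fin.cons_succ]
  ring

theorem rate_cons_zero (d : Fin n → ℕ) (hD : 0 < total d) :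
    rate (Fin.cons (total d) d : Fin (n+1) → ℕ) 0 = 1 / 2 := by
  have hD' : (0:ℝ) < total d := by exact_mod_cast hD
  unfold rate
  rw [total_cons]
  simp only [Fin.cons_zero]
  push_cast
  field_simp

theorem rate_cons_succ (d : Fin n → ℕ) (i : Fin n) :
    rate (Fin.cons (total d) d : Fin (n+1) → ℕ) i.succ = rate d i / 2 := by
  unfold rate
  rw [total_cons]
  simp only [Fin.cons_succ]
  push_cast
  rw [div_div, mul_comm]

theorem Fl_half_even (b : ℤ) : Fl (1 / 2) (2 * b) = b := by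
  unfold Fl
  rw [Int.floor_eq_iff]
  push_cast
  constructor <;> linarith

theorem Fl_half_odd (b : ℤ) : Fl (1 / 2) (2 * b - 1) = b - 1 := by
  unfold Fl
  rw [Int.floor_eq_iff]
  push_cast
  constructor <;> linarith

theorem Cl_half_even (b : ℤ) : Cl (1 / 2) (2 * b) = b := by
  unfold Cl
  rw [Int.ceil_eq_iff]
  push_cast
  constructor <;> linarith

theorem Cl_half_odd (b : ℤ) : Cl (1 / 2) (2 * b - 1) = b := by
  unfold Cl
  rw [Int.ceil_eq_iff]
  push_cast
  constructor <;> linarith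

theorem Fl_even (r : ℝ) (b : ℤ) : Fl (r / 2) (2 * b) = Fl r b := by
  unfold Fl
  congr 2
  push_cast
  ring

theorem Cl_even (r : ℝ) (b : ℤ) : Cl (r / 2) (2 * b) = Cl r b := by
  unfold Cl
  congr 2
  push_cast
  ring

theorem Fl_odd {r : ℝ} (hr : 0 ≤ r) (b : ℤ) : Fl (r / 2) (2 * b - 1) ≤ Fl r b := by
  unfold Fl
  apply Int.floor_mono
  push_cast
  nlinarith

theorem Cl_odd {r : ℝ} (hr : 0 ≤ r) (b : ℤ) : Cl r (b - 1) ≤ Cl (r / 2) (2 * b - 1) := by
  unfold Cl
  apply Int.ceil_mono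
  push_cast
  nlinarith

/-- The new letter `0` has demand `D = d₁ + … + dₙ`. -/
theorem doubling (d : Fin n → ℕ) (hD : 0 < total d) :
    Bstar (Fin.cons (total d) d : Fin (n+1) → ℕ) < 3 / 4 ↔ Bstar d < 3 / 4 := by
  set d' : Fin (n+1) → ℕ := Fin.cons (total d) d with hd'
  have hT : total d' = 2 * total d := total_cons d
  have hD' : 0 < total d' := by omega
  have r0 : rate d' 0 = 1 / 2 := rate_cons_zero d hD
  have rs : ∀ i : Fin n, rate d' i.succ = rate d i / 2 := rate_cons_succ d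
  constructor
  · intro h
    apply Bstar_lt_of_hall d hD
    intro a b hab hb
    have h1 := hall_of_Bstar_lt d' hD' h (2 * a) (2 * b) (by omega)
    rw [Fin.sum_univ_succ, r0] at h1
    simp only [rs] at h1
    push_cast at h1
    rw [Fl_half_even, Cl_half_even] at h1
    simp only [Fl_even, Cl_even] at h1
    have h2 : (0:ℤ) ≤ (b:ℤ) - a := by omega
    rw [max_eq_right h2] at h1
    linarith
  · intro h
    apply Bstar_lt_of_hall d' hD'
    intro A B hAB hB
    rw [Fin.sum_univ_succ, r0]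
    simp only [rs]
    have hr : ∀ i, 0 ≤ rate d i := rate_nonneg d
    -- the four parity cases
    have main : ∀ (a' b' : ℕ) (F C : Fin n → ℤ), a' ≤ b' → (∀ i, F i ≤ Fl (rate d i) b') →
        (∀ i, Cl (rate d i) a' ≤ C i) → ∑ i, max 0 (F i - C i) ≤ (b':ℤ) - a' := by
      intro a' b' F C hab hF hC
      refine le_trans (Finset.sum_le_sum fun i _ => ?_) (hall_of_Bstar_lt d hD h a' b' hab)
      apply max_le_max le_rfl
      have := hF i
      have := hC i
      omega
    rcases Nat.even_or_odd' A with ⟨a, rfl | rfl⟩ <;> rcases Nat.even_or_odd' B with ⟨b, rfl | rfl⟩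
    · -- even, even
      have h1 := main a b (fun i => Fl (rate d i / 2) ((2 * b : ℕ) : ℤ)) (fun i => Cl (rate d i / 2) ((2 * a : ℕ) : ℤ))
        (by omega) (fun i => by push_cast; rw [Fl_even]) (fun i => by push_cast; rw [Cl_even])
      push_cast at h1 ⊢
      rw [Fl_half_even, Cl_half_even]
      have h2 : (0:ℤ) ≤ (b:ℤ) - a := by omega
      rw [max_eq_right h2]
      linarith
    · -- even, odd
      have e1 : ((2 * b + 1 : ℕ) : ℤ) = 2 * ((b:ℤ) + 1) - 1 := by push_cast; ring
      have h1 := main a (b + 1) (fun i => Fl (rate d i / 2) ((2 * b + 1 : ℕ) : ℤ)) (fun i => Cl (rate d i / 2) ((2 * a : ℕ) : ℤ))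
        (by omega) (fun i => by rw [e1]; push_cast; exact Fl_odd (hr i) _) (fun i => by push_cast; rw [Cl_even])
      rw [e1] at h1 ⊢
      push_cast at h1 ⊢
      rw [Fl_half_odd, Cl_half_even]
      have h2 : (0:ℤ) ≤ (b:ℤ) + 1 - 1 - a := by omega
      rw [max_eq_right h2]
      linarith
    · -- odd, even
      have e1 : ((2 * a + 1 : ℕ) : ℤ) = 2 * ((a:ℤ) + 1) - 1 := by push_cast; ring
      have h1 := main a b (fun i => Fl (rate d i / 2) ((2 * b : ℕ) : ℤ)) (fun i => Cl (rate d i / 2) ((2 * a + 1 : ℕ) : ℤ))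
        (by omega) (fun i => by push_cast; rw [Fl_even]) (fun i => by
          rw [e1]
          have := Cl_odd (hr i) ((a:ℤ) + 1)
          rwa [add_sub_cancel_right] at this)
      rw [e1] at h1 ⊢
      push_cast at h1 ⊢
      rw [Fl_half_even, Cl_half_odd]
      have h2 : (0:ℤ) ≤ (b:ℤ) - (a + 1) := by omega
      rw [max_eq_right h2]
      linarith
    · -- odd, odd
      have e1 : ((2 * a + 1 : ℕ) : ℤ) = 2 * ((a:ℤ) + 1) - 1 := by push_cast; ring
      have e2 : ((2 * b + 1 : ℕ) : ℤ) = 2 * ((b:ℤ) + 1) - 1 := by push_cast; ring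
      have h1 := main a (b + 1) (fun i => Fl (rate d i / 2) ((2 * b + 1 : ℕ) : ℤ)) (fun i => Cl (rate d i / 2) ((2 * a + 1 : ℕ) : ℤ))
        (by omega) (fun i => by rw [e2]; push_cast; exact Fl_odd (hr i) _) (fun i => by
          rw [e1]
          have := Cl_odd (hr i) ((a:ℤ) + 1)
          rwa [add_sub_cancel_right] at this)
      rw [e1, e2] at h1 ⊢
      push_cast at h1 ⊢
      rw [Fl_half_odd, Cl_half_odd]
      have h2 : (0:ℤ) ≤ (b:ℤ) + 1 - 1 - (a + 1) := by omega
      rw [max_eq_right h2]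
      linarith

end Pool.Agent.H32.BM
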