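import Mathlib
import Pool.Agent.H32.BM.Fam

/-!
# The family `(m + 8q + 4, m + 8q + 4, m + 8q + 5, m)`

For `q ≥ 2` and `m ≥ 8q² + q - 2`: `B*(d) < 3/4` iff `m > 8q² + q - 2`.
-/

set_option autoImplicit false

namespace Pool.Agent.H32.BM

open Finset Pool.Agent.H78.BN

private theorem fam_arith (q m a t s : ℤ) (hq : 2 ≤ q) (hm : 8 * q ^ 2 + q < m + 2)
    (h1 : 4 * a * (m + 8 * q + 4) - (4 * m + 24 * q + 13) ≤ 4 * (4 * m + 24 * q + 13) * t)
    (h2 : 4 * (4 * m + 24 * q + 13) * (t + 1) ≤ 4 * (a + 2) * (m + 8 * q + 4)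
      + (4 * m + 24 * q + 13))
    (h3 : 4 * a * (m + 8 * q + 5) - (4 * m + 24 * q + 13) ≤ 4 * (4 * m + 24 * q + 13) * s)
    (h4 : 4 * (4 * m + 24 * q + 13) * (s + 1) ≤ 4 * (a + 2) * (m + 8 * q + 5)
      + (4 * m + 24 * q + 13)) : False := by
  obtain ⟨x, hx⟩ : ∃ x, x = 8 * q + 3 := ⟨_, rfl⟩
  obtain ⟨D, hD⟩ : ∃ D, D = 4 * m + 24 * q + 13 := ⟨_, rfl⟩
  obtain ⟨M, hM⟩ : ∃ M, M = 4 * t + 1 - a := ⟨_, rfl⟩
  obtain ⟨T, hT⟩ : ∃ T, T = s - t := ⟨_, rfl⟩
  obtain ⟨e, he⟩ : ∃ e, e = M - T * x := ⟨_, rfl⟩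
  have hx0 : 0 < x := by omega
  have hm' : 8 * q ^ 2 + q ≤ m + 1 := by omega
  have hD1 : 32 * q ^ 2 + 28 * q + 9 ≤ D := by rw [hD]; linarith
  have hD2 : x * (x + 4) < 4 * D := by rw [hx]; nlinarith
  -- the inequalities in terms of `M`
  have g1 : a * x ≤ D * M := by rw [hx, hM, hD]; nlinarith
  have g2 : D * M ≤ (a + 2) * x := by rw [hx, hM, hD]; nlinarith
  have g3 : a * (x + 4) ≤ D * (M + 4 * T) := by rw [hx, hM, hT, hD]; nlinarith
  have g4 : D * (M + 4 * T) ≤ (a + 2) * (x + 4) := by rw [hx, hM, hT, hD]; nlinarith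
  -- `|e| ≤ 1`
  have k1 : 4 * D * e ≤ 2 * (x * (x + 4)) := by
    have i1 := mul_le_mul_of_nonneg_right g2 (by omega : 0 ≤ x + 4)
    have i2 := mul_le_mul_of_nonneg_right g3 hx0.le
    rw [he]
    nlinarith
  have k2 : -(2 * (x * (x + 4))) ≤ 4 * D * e := by
    have i1 := mul_le_mul_of_nonneg_right g1 (by omega : 0 ≤ x + 4)
    have i2 := mul_le_mul_of_nonneg_right g4 hx0.le
    rw [he]
    nlinarith
  have e1 : e ≤ 1 := by
    by_contra hc
    push Not at hc
    have : 2 ≤ e := by omega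
    nlinarith
  have e2 : -1 ≤ e := by
    by_contra hc
    push Not at hc
    have : e ≤ -2 := by omega
    nlinarith
  -- shift by the period
  obtain ⟨a', ha'⟩ : ∃ a', a' = a - D * T := ⟨_, rfl⟩
  have hMe : M = T * x + e := by rw [he]; ring
  have p1 : a' * x ≤ D * e := by rw [ha']; rw [hMe] at g1; nlinarith
  have p2 : D * e ≤ (a' + 2) * x := by rw [ha']; rw [hMe] at g2; nlinarith
  have p3 : a' * (x + 4) ≤ D * e := by rw [ha']; rw [hMe] at g3; nlinarith
  have p4 : D * e ≤ (a' + 2) * (x + 4) := by rw [ha']; rw [hMe] at g4; nlinarith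
  obtain ⟨j, hj⟩ : ∃ j, a' = 4 * j + 1 - e := by
    refine ⟨t - 2 * (T * q) - T - (m + 6 * q + 3) * T, ?_⟩
    have hMe' : 4 * t + 1 - a = T * x + e := by rw [← hM]; exact hMe
    have : a = 4 * t + 1 - (T * x + e) := by linarith
    rw [ha', this, hx, hD]
    ring
  -- the condition with `A = 4 J`
  have fin : ∀ J : ℤ, 4 * J * (x + 4) ≤ D → D ≤ (4 * J + 2) * x → False := by
    intro J c1 c2
    have c3 : J ≤ q := by
      by_contra hc
      push Not at hc
      have c4 : q + 1 ≤ J := by omega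
      have c5 : 4 * J * (x + 4) ≤ (4 * J + 2) * x := le_trans c1 c2
      rw [hx] at c5
      nlinarith
    have c4 : (4 * J + 2) * x ≤ (4 * q + 2) * x := by
      apply mul_le_mul_of_nonneg_right _ hx0.le
      omega
    rw [hx] at c4 c2
    nlinarith
  have e3 : e = -1 ∨ e = 0 ∨ e = 1 := by omega
  rcases e3 with e3 | e3 | e3
  · rw [e3] at p1 p2 p3 p4 hj
    apply fin (-j - 1)
    · nlinarith
    · nlinarith
  · rw [e3] at p1 p2 p3 p4 hj
    rw [mul_zero] at p1 p2 p3 p4
    have q1 : a' ≤ 0 := by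
      by_contra hc
      push Not at hc
      nlinarith
    have q2 : 0 ≤ a' + 2 := by
      by_contra hc
      push Not at hc
      nlinarith
    omega
  · rw [e3] at p1 p2 p3 p4 hj
    apply fin j
    · nlinarith
    · nlinarith

/-- The total demand of the family. -/
theorem total_fam (q m : ℕ) :
    total ![m + 8 * q + 4, m + 8 * q + 4, m + 8 * q + 5, m] = 4 * m + 24 * q + 13 := by
  unfold total
  rw [Fin.sum_univ_four]
  simp only [Matrix.cons_val]
  ring

/-- The exact threshold on the family. -/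
theorem fam_iff (q m : ℕ) (hq : 2 ≤ q) (hm : 8 * q ^ 2 + q ≤ m + 2) :
    Bstar ![m + 8 * q + 4, m + 8 * q + 4, m + 8 * q + 5, m] < 3 / 4 ↔ 8 * q ^ 2 + q < m + 2 := by
  set d : Fin 4 → ℕ := ![m + 8 * q + 4, m + 8 * q + 4, m + 8 * q + 5, m] with hd
  have hT : total d = 4 * m + 24 * q + 13 := total_fam q m
  have hD : 0 < total d := by omega
  have d0 : d 0 = m + 8 * q + 4 := rfl
  have d1 : d 1 = m + 8 * q + 4 := rfl
  have d2 : d 2 = m + 8 * q + 5 := rfl
  have d3 : d 3 = m := rfl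
  have hmq : 8 * q + 2 ≤ m := by nlinarith
  have hpos : ∀ i, 0 < d i := by
    intro i
    fin_cases i
    · show 0 < d 0; omega
    · show 0 < d 1; omega
    · show 0 < d 2; omega
    · show 0 < d 3; omega
  constructor
  · intro h
    by_contra hc
    have hm' : 8 * q ^ 2 + q = m + 2 := by omega
    have h1 := hall_of_Bstar_lt d hD h (4 * q) (4 * q + 2) (by omega)
    have hmz : (m:ℤ) = 8 * q ^ 2 + q - 2 := by
      have : ((8 * q ^ 2 + q : ℕ) : ℤ) = ((m + 2 : ℕ) : ℤ) := by rw [hm']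
      push_cast at this
      linarith
    have hf : ∀ i : Fin 4, d i = m + 8 * q + 4 ∨ d i = m + 8 * q + 5 →
        1 ≤ Fl (rate d i) ((4 * q + 2 : ℕ) : ℤ) - Cl (rate d i) ((4 * q : ℕ) : ℤ) := by
      intro i hi
      apply forced_ge d hD i (4 * q) (4 * q + 2) q
      · rw [hT]
        rcases hi with hi | hi <;> rw [hi] <;> push_cast <;> rw [hmz] <;> nlinarith
      · rw [hT]
        rcases hi with hi | hi <;> rw [hi] <;> push_cast <;> rw [hmz] <;> nlinarith
    have f0 := hf 0 (Or.inl d0)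
    have f1 := hf 1 (Or.inl d1)
    have f2 := hf 2 (Or.inr d2)
    rw [Fin.sum_univ_four] at h1
    have m0 := le_max_right (0:ℤ) (Fl (rate d 0) ((4 * q + 2 : ℕ) : ℤ) - Cl (rate d 0) ((4 * q : ℕ) : ℤ))
    have m1 := le_max_right (0:ℤ) (Fl (rate d 1) ((4 * q + 2 : ℕ) : ℤ) - Cl (rate d 1) ((4 * q : ℕ) : ℤ))
    have m2 := le_max_right (0:ℤ) (Fl (rate d 2) ((4 * q + 2 : ℕ) : ℤ) - Cl (rate d 2) ((4 * q : ℕ) : ℤ))
    have m3 := le_max_left (0:ℤ) (Fl (rate d 3) ((4 * q + 2 : ℕ) : ℤ) - Cl (rate d 3) ((4 * q : ℕ) : ℤ))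
    have hb : ((4 * q + 2 : ℕ) : ℤ) - ((4 * q : ℕ) : ℤ) = 2 := by push_cast; ring
    rw [hb] at h1
    linarith
  · intro hlt
    apply Bstar_lt_of_prefix_hall d hD
    · apply prefix_of_not_badMod d hpos
      rintro ⟨g, c, _, ht⟩
      obtain ⟨t0, h0⟩ := ht 0
      obtain ⟨t2, h2⟩ := ht 2
      rw [d0] at h0
      rw [d2] at h2
      have h3 : (4:ℤ) * (g * (t2 - t0)) = 1 := by
        have e0 : ((m + 8 * q + 4 : ℕ) : ℤ) = ((g * (4 * t0 + c) : ℕ) : ℤ) := by rw [h0]
        have e2 : ((m + 8 * q + 5 : ℕ) : ℤ) = ((g * (4 * t2 + c) : ℕ) : ℤ) := by rw [h2]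
        push_cast at e0 e2
        linear_combination e0 - e2
      omega
    · rintro a b hab _ ⟨l, hl⟩
      rw [hT] at hl
      have hml : m ≤ d l := by
        fin_cases l
        · show m ≤ d 0; omega
        · show m ≤ d 1; omega
        · show m ≤ d 2; omega
        · show m ≤ d 3; omega
      have hL : b - a ≤ 2 := by
        by_contra hc
        push Not at hc
        have h1 : 2 * 3 * m ≤ 2 * (b - a) * d l :=
          Nat.mul_le_mul (Nat.mul_le_mul_left _ (by omega)) hml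
        nlinarith
      have hbd : ∀ i : Fin 4, d i ≤ m + 8 * q + 5 := by
        intro i
        fin_cases i
        · show d 0 ≤ _; omega
        · show d 1 ≤ _; omega
        · show d 2 ≤ _; omega
        · show d 3 ≤ _; omega
      have hb : b = a + 1 ∨ b = a + 2 := by omega
      rcases hb with rfl | rfl
      · have h1 : ∀ i ∈ (univ : Finset (Fin 4)),
            max 0 (Fl (rate d i) ((a + 1 : ℕ) : ℤ) - Cl (rate d i) (a : ℤ)) = 0 := by
          intro i _
          apply max_eq_left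
          apply forced_le d hD i a (a + 1) 0
          have := hbd i
          rw [hT]
          nlinarith
        rw [Finset.sum_eq_zero h1]
        push_cast
        linarith
      · have hb1 : ∀ i : Fin 4, Fl (rate d i) ((a + 2 : ℕ) : ℤ) - Cl (rate d i) (a : ℤ) ≤ 1 := by
          intro i
          apply forced_le d hD i a (a + 2) 1
          have := hbd i
          rw [hT]
          nlinarith
        have hb3 : Fl (rate d 3) ((a + 2 : ℕ) : ℤ) - Cl (rate d 3) (a : ℤ) ≤ 0 := by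
          apply forced_le d hD 3 a (a + 2) 0
          rw [hT, d3]
          nlinarith
        by_contra hcon
        push Not at hcon
        rw [Fin.sum_univ_four] at hcon
        have c0 := hb1 0
        have c1 := hb1 1
        have c2 := hb1 2
        have k0 : 1 ≤ Fl (rate d 0) ((a + 2 : ℕ) : ℤ) - Cl (rate d 0) (a : ℤ) := by
          push_cast at *
          omega
        have k2 : 1 ≤ Fl (rate d 2) ((a + 2 : ℕ) : ℤ) - Cl (rate d 2) (a : ℤ) := by
          push_cast at *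
          omega
        obtain ⟨t, t1, t2⟩ := forced_one d hD 0 a (a + 2) k0
        obtain ⟨s, s1, s2⟩ := forced_one d hD 2 a (a + 2) k2
        rw [hT, d0] at t1 t2
        rw [hT, d2] at s1 s2
        push_cast at t1 t2 s1 s2
        refine fam_arith q m a t s (by exact_mod_cast hq) (by exact_mod_cast hlt) t1 t2 s1 s2

end Pool.Agent.H32.BM
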